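import Mathlib
import Pool.Agent.Helper35.PI2.St

/-!
Module GV of project PI2 (MP_b2fa09_gt): the field `V` and the time derivative of
`2 |A|^2 - |H|^2` at the centre of a graph.
-/

namespace Helper92.PI2

open Helper35.PI Helper35.PI2
open scoped ContDiff Manifold Topology ENNReal BigOperators
open MeasureTheory Set Filter

variable {n N : ℕ}

/-- derivative of a slice -/
lemma slice_fderiv {V : Type*} [NormedAddCommGroup V] [NormedSpace ℝ V]
    {φ : EE n × ℝ → V} {x : EE n} {t : ℝ} (h : DifferentiableAt ℝ φ (x, t)) (k : Fin n) :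
    fderiv ℝ (fun y => φ (y, t)) x (ee k) = jg φ (x, t) k := by
  have h1 : HasFDerivAt (fun y : EE n => (y, t)) (ContinuousLinearMap.inl ℝ (EE n) ℝ) x :=
    hasFDerivAt_prodMk_left x t
  have h2 : HasFDerivAt (fun y => φ (y, t))
      ((fderiv ℝ φ (x, t)).comp (ContinuousLinearMap.inl ℝ (EE n) ℝ)) x :=
    (h.hasFDerivAt).comp x h1
  rw [h2.fderiv]
  simp [jg]

/-- spatial derivatives of a smooth function are differentiable -/
lemma jg_contDiffAt {V : Type*} [NormedAddCommGroup V] [NormedSpace ℝ V]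
    {φ : EE n × ℝ → V} {z : EE n × ℝ} {m : WithTop ℕ∞} {m' : WithTop ℕ∞}
    (h : ContDiffAt ℝ m φ z) (hm : m' + 1 ≤ m) (k : Fin n) :
    ContDiffAt ℝ m' (fun z' => jg φ z' k) z := by
  unfold jg
  exact (h.fderiv_right hm).clm_apply contDiffAt_const

lemma slice_tendsto (t : ℝ) : Tendsto (fun x : EE n => (x, t)) (𝓝 0) (𝓝 (0, t)) := by
  have : Continuous (fun x : EE n => (x, t)) := by fun_prop
  exact this.tendsto 0

lemma inner_ee (L : EE n →ₗᵢ[ℝ] EE N) (i j : Fin n) :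
    (inner ℝ (L (ee i)) (L (ee j)) : ℝ) = if i = j then 1 else 0 := by
  rw [L.inner_map_map]
  unfold ee
  rw [EuclideanSpace.inner_single_left, PiLp.single_apply]
  simp

theorem hGV (hGX : StGX) (hGS : StGS) (hG0 : StG0) (hG1 : StG1) (hG2 : StG2) (hG7 : StG7)
    (hG8 : StG8) (_hSM : StSM) (hJA : StJA) : StGV := by
  intro n N x₀ L u t₀ hu A T hA hT μ
  obtain ⟨hXs, -, hXg, hXh⟩ := hG7 n N x₀ L u t₀ hu A T hA hT
  obtain ⟨hYs, -, hYg, hYh⟩ := hG8 n N x₀ L u t₀ hu A T hA hT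
  obtain ⟨hS, hSd⟩ := hGS n N x₀ L u t₀ hu A T hA hT
  have hXt := hGX n N x₀ L u t₀ hu A hA
  have h2 := hG2 n N x₀ L u t₀ hu
  have hGI := hG0 n N x₀ L u t₀ hu
  have hn1 := (hG1 n N x₀ L u t₀ hu).2.2.1
  set z₀ : EE n × ℝ := (0, t₀) with hz₀
  -- the function Φ
  set Φ : EE n × ℝ → ℝ := fun z => 2 * (1 + μ) * Xf x₀ L u z - Yf x₀ L u z with hΦ
  have hX2 : ContDiffAt ℝ 2 (Xf x₀ L u) z₀ := hXs.of_le (by norm_num)
  have hY2 : ContDiffAt ℝ 2 (Yf x₀ L u) z₀ := hYs.of_le (by norm_num)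
  have hcX2 : ContDiffAt ℝ 2 (fun z => (2 * (1 + μ)) • Xf x₀ L u z) z₀ :=
    (contDiffAt_const (c := 2 * (1 + μ))).mul hX2
  have hΦ2 : ContDiffAt ℝ 2 Φ z₀ := (contDiffAt_const.mul hX2).sub hY2
  obtain ⟨hj1, hj2, hj3, hj4, hj5⟩ := hJA n ℝ z₀
  have hΦeq : Φ = fun z => (fun z => (2 * (1 + μ)) • Xf x₀ L u z) z - Yf x₀ L u z := by
    funext z; simp [hΦ]
  have hΦg : ∀ k, jg Φ z₀ k = 2 * (1 + μ) * gX A T k - gY A T k := by
    intro k
    rw [hΦeq, (hj3 _ _ hcX2 hY2).2.2.1 k, (hj4 _ _ hX2).1 k, hXg, hYg, smul_eq_mul]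
  have hΦh : jh Φ z₀ = 2 * (1 + μ) * hX A T - hY A T := by
    rw [hΦeq, (hj3 _ _ hcX2 hY2).2.2.2, (hj4 _ _ hX2).2, hXh, hYh, smul_eq_mul]
  have hXd : DifferentiableAt ℝ (Xf x₀ L u) z₀ := hX2.differentiableAt (by norm_num)
  have hYd : DifferentiableAt ℝ (Yf x₀ L u) z₀ := hY2.differentiableAt (by norm_num)
  have hjt : ∀ c : ℝ, jt (fun z => c * Xf x₀ L u z - Yf x₀ L u z) z₀
      = c * jt (Xf x₀ L u) z₀ - jt (Yf x₀ L u) z₀ := by
    intro c
    unfold jt
    have : HasFDerivAt (fun z => c * Xf x₀ L u z - Yf x₀ L u z)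
        (c • fderiv ℝ (Xf x₀ L u) z₀ - fderiv ℝ (Yf x₀ L u) z₀) z₀ :=
      (hXd.hasFDerivAt.const_mul c).sub hYd.hasFDerivAt
    rw [this.fderiv]
    simp
  -- the covector W
  set W : Fin n → EE n × ℝ → ℝ := fun k z => jg Φ z k - 4 * μ * Sf x₀ L u k z with hW
  have hΦ1 : ∀ k, DifferentiableAt ℝ (fun z => jg Φ z k) z₀ := fun k =>
    (jg_contDiffAt (m' := 1) hΦ2 (by norm_num) k).differentiableAt (by norm_num)
  have hSdiff : ∀ k, DifferentiableAt ℝ (Sf x₀ L u k) z₀ := fun k =>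
    (hS k).1.differentiableAt (by simp)
  have hWd : ∀ k, DifferentiableAt ℝ (W k) z₀ := fun k =>
    (hΦ1 k).sub ((hSdiff k).const_mul _)
  have hW0 : ∀ k, W k z₀ = vk μ A T k := by
    intro k
    simp only [hW, vk]
    rw [hΦg, (hS k).2]
  have hWg : ∀ k i, jg (W k) z₀ i = jgg Φ z₀ i k - 4 * μ * jg (Sf x₀ L u k) z₀ i := by
    intro k i
    have : HasFDerivAt (W k)
        (fderiv ℝ (fun z => jg Φ z k) z₀ - (4 * μ) • fderiv ℝ (Sf x₀ L u k) z₀) z₀ :=
      (hΦ1 k).hasFDerivAt.sub ((hSdiff k).hasFDerivAt.const_mul _)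
    show fderiv ℝ (W k) z₀ (ee i, 0) = _
    rw [this.fderiv]
    simp [jgg, jg]
  -- the field on space time
  set Ef : EE n × ℝ → EE N := fun z =>
    ∑ k, ∑ l, (GIf x₀ L u k l z * W k z) • (L (ee l) + jg u z l) with hEf
  have hΦev : ∀ᶠ z in 𝓝 z₀, DifferentiableAt ℝ Φ z := by
    filter_upwards [(hΦ2.of_le (by norm_num : (1 : WithTop ℕ∞) ≤ 2)).eventually (by norm_num)]
      with z hz
    exact hz.differentiableAt (by norm_num)
  have hev : (fun x => vfd μ (grf x₀ L u t₀) x) =ᶠ[𝓝 0] fun x => Ef (x, t₀) := by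
    filter_upwards [(slice_tendsto (n := n) t₀).eventually hΦev,
      (slice_tendsto (n := n) t₀).eventually h2] with x hx1 hx2
    simp only [vfd, hEf]
    refine Finset.sum_congr rfl fun k _ => Finset.sum_congr rfl fun l _ => ?_
    have e1 : vcv μ (grf x₀ L u t₀) x k = W k (x, t₀) := by
      simp only [hW, vcv]
      rw [← slice_fderiv hx1 k]
      rfl
    have e2 : dv1 (grf x₀ L u t₀) x l = L (ee l) + jg u (x, t₀) l := hx2.1 l
    rw [e1, e2]
    rfl
  have hu1 : ∀ l, DifferentiableAt ℝ (fun z => jg u z l) z₀ := fun l =>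
    (jg_contDiffAt (m := 2) (m' := 1)
      (contDiffAt_infty.1 hu.smooth 2) (by norm_num) l).differentiableAt (by norm_num)
  have hGd : ∀ k l, DifferentiableAt ℝ (GIf x₀ L u k l) z₀ := fun k l =>
    (hGI k l).1.differentiableAt (by simp)
  have hG00 : ∀ k l, GIf x₀ L u k l z₀ = if k = l then 1 else 0 := fun k l => (hGI k l).2.1
  have hGg : ∀ k l i, fderiv ℝ (GIf x₀ L u k l) z₀ (ee i, 0) = 0 := fun k l i =>
    (hGI k l).2.2.1 i
  have hdu : ∀ l, jg u z₀ l = 0 := hu.du0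
  have hterm : ∀ k l, HasFDerivAt
      (fun z => (GIf x₀ L u k l z * W k z) • (L (ee l) + jg u z l))
      ((GIf x₀ L u k l z₀ * W k z₀) • fderiv ℝ (fun z => jg u z l) z₀
        + (GIf x₀ L u k l z₀ • fderiv ℝ (W k) z₀ + W k z₀ • fderiv ℝ (GIf x₀ L u k l) z₀).smulRight
          (L (ee l) + jg u z₀ l)) z₀ := by
    intro k l
    have := ((hGd k l).hasFDerivAt.mul (hWd k).hasFDerivAt).smul
      ((hu1 l).hasFDerivAt.const_add (L (ee l)))
    exact this
  have hEd : HasFDerivAt Ef (∑ k, ∑ l, ((GIf x₀ L u k l z₀ * W k z₀) • fderiv ℝ (fun z => jg u z l) z₀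
        + (GIf x₀ L u k l z₀ • fderiv ℝ (W k) z₀ + W k z₀ • fderiv ℝ (GIf x₀ L u k l) z₀).smulRight
          (L (ee l) + jg u z₀ l))) z₀ := by
    have := HasFDerivAt.fun_sum (u := Finset.univ) fun k _ =>
      HasFDerivAt.fun_sum (u := Finset.univ) fun l _ => hterm k l
    exact this
  have hEg : ∀ i, jg Ef z₀ i
      = ∑ k, (W k z₀ • jgg u z₀ i k + jg (W k) z₀ i • L (ee k)) := by
    intro i
    show fderiv ℝ Ef z₀ (ee i, 0) = _
    rw [hEd.fderiv]
    simp only [_root_.sum_apply, _root_.add_apply,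
      _root_.smul_apply, ContinuousLinearMap.smulRight_apply, hGg, hdu, hG00]
    refine Finset.sum_congr rfl fun k _ => ?_
    rw [Finset.sum_eq_single k]
    · simp [jgg, jg]
    · intro l _ hl
      simp [hl.symm]
    · simp
  have hfd : ∀ i, fderiv ℝ (vfd μ (grf x₀ L u t₀)) 0 (ee i) = jg Ef z₀ i := by
    intro i
    have h3 : fderiv ℝ (vfd μ (grf x₀ L u t₀)) 0 = fderiv ℝ (fun x => Ef (x, t₀)) 0 :=
      Filter.EventuallyEq.fderiv_eq hev
    rw [h3]
    exact slice_fderiv hEd.differentiableAt i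
  have hd0 : ∀ l, dv1 (grf x₀ L u t₀) 0 l = L (ee l) := by
    intro l
    have := h2.self_of_nhds.1 l
    simp only [hz₀] at this hdu
    rw [this, hdu, add_zero]
  have hg0 : ∀ i j, (gram (grf x₀ L u t₀) 0)⁻¹ i j = if i = j then 1 else 0 := hG00
  have hdvc : dvc (grf x₀ L u t₀) (vfd μ (grf x₀ L u t₀)) 0 = ∑ i, jg (W i) z₀ i := by
    unfold dvc
    refine Finset.sum_congr rfl fun i _ => ?_
    rw [Finset.sum_eq_single i]
    · rw [hg0, if_pos rfl, one_mul, hfd, hEg, hd0, sum_inner]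
      rw [Finset.sum_eq_single i]
      · rw [inner_add_left, inner_smul_left, inner_smul_left, hn1, inner_ee]
        simp
      · intro k _ hk
        rw [inner_add_left, inner_smul_left, inner_smul_left, hn1, inner_ee]
        simp [hk]
      · simp
    · intro j _ hj
      rw [hg0, if_neg hj.symm, zero_mul]
    · simp
  constructor
  · have h7 : vfd μ (grf x₀ L u t₀) 0 = Ef z₀ := hev.self_of_nhds
    rw [h7]
    simp only [hEf, hG00, hdu, add_zero]
    refine Finset.sum_congr rfl fun k _ => ?_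
    rw [Finset.sum_eq_single k]
    · rw [if_pos rfl, one_mul, hW0]
    · intro l _ hl
      rw [if_neg hl.symm, zero_mul, zero_smul]
    · simp
  · rw [hjt 2, hdvc]
    simp only [hWg, Finset.sum_sub_distrib, ← Finset.mul_sum]
    have h5 : jt Φ z₀ = 2 * (1 + μ) * jt (Xf x₀ L u) z₀ - jt (Yf x₀ L u) z₀ := hjt _
    have h6 : jh Φ z₀ = jt Φ z₀ - ∑ k, jgg Φ z₀ k k := rfl
    rw [hSd]
    rw [hXt] at h5 ⊢
    linarith

end Helper92.PI2
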